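import Pool.Agent.Helper18.AM.Weg

/-! Project AM: doubling for a law of the noise which is invariant under resampling of the levels `≥ lo` (port of `Helper95/PV/Dbl.lean`). -/

set_option autoImplicit false
open MeasureTheory Real Set
open scoped ENNReal

namespace Pool.Agent.Helper18.AM

open Pool.Agent.Helper95.PV
open Pool.Agent.Helper72.AP (Rs EmL)
open Pool.Agent.Helper18.UC (T2 rep toT nn nn_nonneg nn_mul nn_one)
open Pool.Agent.Helper18.FD (NN rr pr cl uu lm Bump k1 k2 NN_pos NN_ge cl_of_mem core2 lm_anti meas_lm)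

variable {d : Dat} {W : Measure Om} [IsProbabilityMeasure W]

private theorem measJ_h54 (hd : d.Ok) (m : ℕ) : Measurable (phJ d m) := by
  unfold phJ
  exact ((meas_nn hd (2 * m)).const_mul 4).div
    (((meas_cn1 hd m).comp ((meas_sk hd).iterate m)).mul (meas_rn1 hd (m - 1)))

private theorem measR_h54 (hd : d.Ok) (m : ℕ) : Measurable (phR d m) := by
  unfold phR
  exact ((meas_rn1 hd (m - 1)).const_mul 4).div (meas_rn1 hd (m - 2))

private theorem measC_h54 (hd : d.Ok) (m : ℕ) : Measurable (phC d m) := by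
  unfold phC
  exact ((meas_cn1 hd m).const_mul 4).div ((meas_cn1 hd (m - 1)).comp (meas_sk hd))

/-- the affine change of variables in the noise coordinate -/
private theorem aff_h54 (hd : d.Ok) {v₀ v₁ y₀ e w v K Φ : ℝ} (hK : 0 < K)
    (hv : v₁ = v₀ + d.a * (e * (v - w))) (h : |v₁ - y₀| * K ≤ Φ) :
    |e * v - ((y₀ - v₀) / d.a + e * w)| ≤ Φ / K := by
  have ha := hd.ha
  have ha0 : d.a ≠ 0 := by
    rintro h0
    rw [h0, abs_zero] at ha
    norm_num at ha
  have e1 : e * v - ((y₀ - v₀) / d.a + e * w) = (v₁ - y₀) / d.a := by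
    rw [hv]
    field_simp
    ring
  have h0 : |v₁ - y₀| ≤ Φ / K := by
    rw [le_div_iff₀ hK]
    exact h
  rw [e1, abs_div]
  exact (div_le_self (abs_nonneg _) (by linarith)).trans h0

theorem wegJL (hd : d.Ok) {lo : ℕ} (hRs : ∀ i : Ix, lo ≤ i.1 → Rs W i) {m : ℕ} (hm : 2 ≤ m) :
    ∫⁻ p, lm (phJ d m p) ∂(W.prod (volume : Measure T2)) ≤ ENNReal.ofReal (10 + Real.log (1 / d.κ) + 2 * Real.log (NN lo)) +
      ENNReal.ofReal (1 + d.s) * ∫⁻ p, lm (sepd d (m - 1) (2 * m - 1) p) ∂(W.prod (volume : Measure T2)) := by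
  obtain ⟨k, rfl⟩ : ∃ k, m = k + 1 := ⟨m - 1, by omega⟩
  have e1 : k + 1 - 1 = k := by omega
  have e2 : 2 * (k + 1) - 1 = 2 * k + 1 := by omega
  rw [e1, e2]
  refine wegL hd hRs (by omega) (measJ_h54 hd (k + 1)) fun l ω z c hfar hc => ?_
  obtain ⟨y₀, hy₀⟩ := jun (Mm d (k + 1) ((sk d)^[k + 1] (ω, z))) (Mm d k (ω, z))
  refine ⟨(y₀ - vv d ((sk d)^[k] (ω, z))) / d.a +
    d.κ * (NN l : ℝ) ^ (-d.s) * cl (ω (l, c, true)), fun u hu v hv huv => ?_⟩
  obtain ⟨-, -, hve, hvek⟩ := line hd (by omega) hfar hc hu hv huv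
  have hR : Mm d (k + 1) ((sk d)^[k + 1] (upd l c u v ω, z)) =
      Mm d (k + 1) ((sk d)^[k + 1] (ω, z)) := by
    refine Mm_congr fun j hj => ?_
    rw [← Function.iterate_add_apply, ← Function.iterate_add_apply]
    exact hve (j + (k + 1)) (by omega) (by omega)
  have hL : Mm d k (upd l c u v ω, z) = Mm d k (ω, z) :=
    Mm_congr fun j hj => hve j (by omega) (by omega)
  have hMM : Mm d (2 * (k + 1)) (upd l c u v ω, z) = Mm d (k + 1) ((sk d)^[k + 1] (ω, z)) *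
      (mv (vv d ((sk d)^[k] (upd l c u v ω, z))) * Mm d k (ω, z)) := by
    rw [two_mul, Mm_add, hR, Mm_succ d k (upd l c u v ω, z), hL]
  have h1 := hy₀ (vv d ((sk d)^[k] (upd l c u v ω, z)))
  rw [← hMM] at h1
  have hpos : 0 < cn1 (Mm d (k + 1) ((sk d)^[k + 1] (ω, z))) * rn1 (Mm d k (ω, z)) :=
    mul_pos (cn1_pos (det_Mm _ _)) (rn1_pos (det_Mm _ _))
  unfold phJ
  rw [hR, e1, hL]
  exact aff_h54 hd hpos hvek h1

theorem wegRL (hd : d.Ok) {lo : ℕ} (hRs : ∀ i : Ix, lo ≤ i.1 → Rs W i) {m : ℕ} (hm : 2 ≤ m) :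
    ∫⁻ p, lm (phR d m p) ∂(W.prod (volume : Measure T2)) ≤ ENNReal.ofReal (10 + Real.log (1 / d.κ) + 2 * Real.log (NN lo)) +
      ENNReal.ofReal (1 + d.s) * ∫⁻ p, lm (sepd d (m - 2) (m - 1) p) ∂(W.prod (volume : Measure T2)) := by
  obtain ⟨i, rfl⟩ : ∃ i, m = i + 2 := ⟨m - 2, by omega⟩
  have e1 : i + 2 - 2 = i := by omega
  have e2 : i + 2 - 1 = i + 1 := by omega
  rw [e1, e2]
  refine wegL hd hRs (k := i) (n := i + 1) (by omega) (measR_h54 hd (i + 2)) ?_
  intro l ω z c hfar hc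
  obtain ⟨y₀, hy₀⟩ := row (Mm d i (ω, z))
  refine ⟨(y₀ - vv d ((sk d)^[i] (ω, z))) / d.a +
    d.κ * (NN l : ℝ) ^ (-d.s) * cl (ω (l, c, true)), fun u hu v hv huv => ?_⟩
  obtain ⟨-, -, hve, hvek⟩ := line hd (by omega) hfar hc hu hv huv
  have h0 : Mm d i (upd l c u v ω, z) = Mm d i (ω, z) :=
    Mm_congr fun j hj => hve j (by omega) (by omega)
  have h1 := hy₀ (vv d ((sk d)^[i] (upd l c u v ω, z)))
  unfold phR
  rw [e1, e2, Mm_succ, h0]
  exact aff_h54 hd (rn1_pos (det_Mm _ _)) hvek h1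

theorem wegCL (hd : d.Ok) {lo : ℕ} (hRs : ∀ i : Ix, lo ≤ i.1 → Rs W i) {m : ℕ} (hm : 2 ≤ m) :
    ∫⁻ p, lm (phC d m p) ∂(W.prod (volume : Measure T2)) ≤ ENNReal.ofReal (10 + Real.log (1 / d.κ) + 2 * Real.log (NN lo)) +
      ENNReal.ofReal (1 + d.s) * ∫⁻ p, lm (sepd d 0 (m - 1) p) ∂(W.prod (volume : Measure T2)) := by
  obtain ⟨i, rfl⟩ : ∃ i, m = i + 1 := ⟨m - 1, by omega⟩
  have e1 : i + 1 - 1 = i := by omega
  rw [e1]
  refine wegL hd hRs (k := 0) (n := i) (by omega) (measC_h54 hd (i + 1)) ?_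
  intro l ω z c hfar hc
  obtain ⟨y₀, hy₀⟩ := col (Mm d i (sk d (ω, z)))
  refine ⟨(y₀ - vv d (ω, z)) / d.a +
    d.κ * (NN l : ℝ) ^ (-d.s) * cl (ω (l, c, true)), fun u hu v hv huv => ?_⟩
  obtain ⟨-, -, hve, hvek⟩ := line hd (by omega) hfar hc hu hv huv
  rw [Function.iterate_zero, id, id] at hvek
  have h0 : Mm d i (sk d (upd l c u v ω, z)) = Mm d i (sk d (ω, z)) := by
    refine Mm_congr fun j hj => ?_
    rw [← Function.iterate_succ_apply, ← Function.iterate_succ_apply]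
    exact hve (j + 1) (by omega) (by omega)
  have h2 : Mm d (i + 1) (upd l c u v ω, z) =
      Mm d i (sk d (ω, z)) * mv (vv d (upd l c u v ω, z)) := by
    rw [Mm_add, Function.iterate_one, h0, Mm_one]
  have h1 := hy₀ (vv d (upd l c u v ω, z))
  unfold phC
  rw [e1, h0, h2]
  exact aff_h54 hd (cn1_pos (det_Mm _ _)) hvek h1

private theorem nn_pos_h54 {B : Matrix (Fin 2) (Fin 2) ℝ} (h : B.det = 1) : 0 < nn B := by
  have := nn_ge_two h
  linarith

private theorem phR_pos_h54 (m : ℕ) (p : Pt) : 0 < phR d m p := by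
  unfold phR
  have h1 := rn1_pos (det_Mm (d := d) (m - 1) p)
  have h2 := rn1_pos (det_Mm (d := d) (m - 2) p)
  positivity

private theorem phC_pos_h54 (m : ℕ) (p : Pt) : 0 < phC d m p := by
  unfold phC
  have h1 := cn1_pos (det_Mm (d := d) m p)
  have h2 := cn1_pos (det_Mm (d := d) (m - 1) (sk d p))
  positivity

private theorem phJ_pos_h54 (m : ℕ) (p : Pt) : 0 < phJ d m p := by
  unfold phJ
  have h1 := cn1_pos (det_Mm (d := d) m ((sk d)^[m] p))
  have h2 := rn1_pos (det_Mm (d := d) (m - 1) p)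
  have h3 := nn_pos_h54 (det_Mm (d := d) (2 * m) p)
  positivity

private theorem lm_eq_h54 {x : ℝ} (hx : 0 < x) : lm x = ENNReal.ofReal (max 0 (-Real.log x)) := by
  unfold lm
  rw [if_neg (not_le.2 hx)]
  rcases le_total 0 (-Real.log x) with h | h
  · rw [max_eq_right h]
  · rw [max_eq_left h, ENNReal.ofReal_zero, ENNReal.ofReal_of_nonpos h]

private theorem int_bd_h54 {Φ : Pt → ℝ} (hΦ : Measurable Φ) (hpos : ∀ p, 0 < Φ p) {B : ℝ}
    (hB : 0 ≤ B) (h : ∫⁻ p, lm (Φ p) ∂(W.prod (volume : Measure T2)) ≤ ENNReal.ofReal B) :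
    Integrable (fun p => max 0 (-Real.log (Φ p))) (W.prod (volume : Measure T2)) ∧
      ∫ p, max 0 (-Real.log (Φ p)) ∂(W.prod (volume : Measure T2)) ≤ B := by
  have hm : Measurable fun p => max 0 (-Real.log (Φ p)) :=
    measurable_const.max (Real.measurable_log.comp hΦ).neg
  have h1 : ∫⁻ p, ENNReal.ofReal (max 0 (-Real.log (Φ p))) ∂(W.prod (volume : Measure T2)) ≤ ENNReal.ofReal B := by
    refine le_trans (le_of_eq ?_) h
    refine lintegral_congr fun p => ?_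
    rw [lm_eq_h54 (hpos p)]
  have h0 : 0 ≤ᵐ[W.prod (volume : Measure T2)] fun p => max 0 (-Real.log (Φ p)) :=
    Filter.Eventually.of_forall fun p => le_max_left (0 : ℝ) (-Real.log (Φ p))
  refine ⟨⟨hm.aestronglyMeasurable, ?_⟩, ?_⟩
  · rw [hasFiniteIntegral_iff_ofReal h0]
    exact lt_of_le_of_lt h1 ENNReal.ofReal_lt_top
  · rw [integral_eq_lintegral_of_nonneg_ae h0 hm.aestronglyMeasurable]
    exact ENNReal.toReal_le_of_le_ofReal hB h1

private theorem log100_h54 : Real.log 100 ≤ 5 := by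
  rw [Real.log_le_iff_le_exp (by norm_num)]
  have h1 : Real.exp 5 = Real.exp 1 ^ 5 := by
    rw [← Real.exp_nat_mul]
    norm_num
  rw [h1]
  have h2 : (2.7 : ℝ) ≤ Real.exp 1 := by
    have := Real.exp_one_gt_d9
    linarith
  calc (100 : ℝ) ≤ 2.7 ^ 5 := by norm_num
    _ ≤ Real.exp 1 ^ 5 := pow_le_pow_left₀ (by norm_num) h2 5

theorem dblL {s : ℝ} (hs : 0 < s) (hs1 : s < 1) :
    ∃ β C : ℝ, 0 < β ∧ β < 1 ∧ 0 < C ∧ ∀ d : Dat, d.Ok → d.s = s → ∀ (lo : ℕ) (W : Measure Om), IsProbabilityMeasure W →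
      (∀ i : Ix, lo ≤ i.1 → Rs W i) → ∀ m : ℕ, 2 ≤ m →
      2 * EmL W d m ≤ EmL W d (2 * m) + C * (m : ℝ) ^ β * (Lam d + Real.log (NN lo)) := by
  obtain ⟨β, C₀, hβ, hβ1, hC₀, hsep⟩ := sep_intL hs hs1
  refine ⟨β, 36 + 12 * C₀, hβ, hβ1, by positivity, fun d hd hds lo W hW hR m hm => ?_⟩
  have hm1 : (1 : ℝ) ≤ m := by exact_mod_cast (by omega : 1 ≤ m)
  have hm0 : (0 : ℝ) < m := by linarith
  obtain ⟨hLam0, -, hκ0⟩ := one_le_Lam hd
  have hlN0 : 0 ≤ Real.log (NN lo : ℝ) := Real.log_nonneg (by linarith [NN_ge lo])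
  obtain ⟨LN, hLN⟩ : ∃ LN : ℝ, LN = Lam d + Real.log (NN lo) := ⟨_, rfl⟩
  have hLam : 1 ≤ LN := by linarith
  have ha := hd.ha
  have ha0 : 0 < |d.a| := by linarith
  have hla : 0 ≤ Real.log |d.a| := Real.log_nonneg (by linarith)
  set B : ℝ := 10 + Real.log (1 / d.κ) + 2 * Real.log (NN lo) + 2 * (C₀ * (2 * (m : ℝ)) ^ β * LN) with hB
  have hS0 : 0 ≤ C₀ * (2 * (m : ℝ)) ^ β * LN := by positivity
  have hB0 : 0 ≤ B := by positivity
  -- the separation integrals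
  have hsb : ∀ k n : ℕ, k ≤ n → 1 ≤ n → n ≤ 2 * m →
      ENNReal.ofReal (10 + Real.log (1 / d.κ) + 2 * Real.log (NN lo)) +
      ENNReal.ofReal (1 + d.s) * ∫⁻ p, lm (sepd d k n p) ∂(W.prod (volume : Measure T2)) ≤ ENNReal.ofReal B := by
    intro k n hk hn hn2
    have h1 := hsep d hd hds lo W hW hR k n hk hn
    rw [← hLN] at h1
    have h2 : C₀ * (n : ℝ) ^ β * LN ≤ C₀ * (2 * (m : ℝ)) ^ β * LN := by
      have h3 : (n : ℝ) ≤ 2 * m := by exact_mod_cast hn2
      have h4 : (n : ℝ) ^ β ≤ (2 * (m : ℝ)) ^ β := Real.rpow_le_rpow (by positivity) h3 hβ.le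
      gcongr
    have h3 := h1.trans (ENNReal.ofReal_le_ofReal h2)
    have h4 : ENNReal.ofReal (1 + d.s) ≤ ENNReal.ofReal 2 :=
      ENNReal.ofReal_le_ofReal (by linarith [hd.hs1])
    calc ENNReal.ofReal (10 + Real.log (1 / d.κ) + 2 * Real.log (NN lo)) +
          ENNReal.ofReal (1 + d.s) * ∫⁻ p, lm (sepd d k n p) ∂(W.prod (volume : Measure T2))
        ≤ ENNReal.ofReal (10 + Real.log (1 / d.κ) + 2 * Real.log (NN lo)) +
          ENNReal.ofReal 2 * ENNReal.ofReal (C₀ * (2 * (m : ℝ)) ^ β * LN) := by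
          gcongr
      _ = ENNReal.ofReal B := by
          rw [← ENNReal.ofReal_mul (by norm_num), ← ENNReal.ofReal_add (by positivity)
            (by positivity), hB]
  have hskm : Measurable ((sk d)^[m]) := (meas_sk hd).iterate m
  -- the three functions
  have mJ : Measurable (phJ d m) := measJ_h54 hd m
  have mR : Measurable (phR d m) := measR_h54 hd m
  have mC : Measurable (phC d m) := measC_h54 hd m
  have iJ := int_bd_h54 mJ (phJ_pos_h54 m) hB0 ((wegJL hd hR hm).trans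
    (hsb (m - 1) (2 * m - 1) (by omega) (by omega) (by omega)))
  have iR := int_bd_h54 mR (phR_pos_h54 m) hB0 ((wegRL hd hR hm).trans
    (hsb (m - 2) (m - 1) (by omega) (by omega) (by omega)))
  have iC : Integrable (fun p => max 0 (-Real.log (phC d m ((sk d)^[m] p)))) (W.prod (volume : Measure T2)) ∧
      ∫ p, max 0 (-Real.log (phC d m ((sk d)^[m] p))) ∂(W.prod (volume : Measure T2)) ≤ B := by
    refine int_bd_h54 (Φ := fun p => phC d m ((sk d)^[m] p)) (mC.comp hskm)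
      (fun p => phC_pos_h54 m _) hB0 ?_
    have h1 : ∫⁻ p, lm (phC d m ((sk d)^[m] p)) ∂(W.prod (volume : Measure T2)) = ∫⁻ p, lm (phC d m p) ∂(W.prod (volume : Measure T2)) :=
      (sk_iter_mpL hd m).lintegral_comp (f := fun p => lm (phC d m p)) (meas_lm.comp mC)
    rw [h1]
    exact (wegCL hd hR hm).trans (hsb 0 (m - 1) (by omega) (by omega) (by omega))
  -- integrate the pointwise inequality
  have i1 := int_log_nnL (W := W) hd m
  have i2 : Integrable (fun p => Real.log (nn (Mm d m ((sk d)^[m] p)))) (W.prod (volume : Measure T2)) :=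
    (sk_iter_mpL hd m).integrable_comp_of_integrable i1
  have i3 := int_log_nnL (W := W) hd (2 * m)
  have j1 : Integrable (fun p => Real.log (nn (Mm d (2 * m) p)) + Real.log (100 * |d.a| ^ 3)) (W.prod (volume : Measure T2)) :=
    i3.add (integrable_const _)
  have j2 : Integrable (fun p => Real.log (nn (Mm d (2 * m) p)) + Real.log (100 * |d.a| ^ 3) +
      max 0 (-Real.log (phJ d m p))) (W.prod (volume : Measure T2)) := j1.add iJ.1
  have j3 : Integrable (fun p => Real.log (nn (Mm d (2 * m) p)) + Real.log (100 * |d.a| ^ 3) +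
      max 0 (-Real.log (phJ d m p)) + max 0 (-Real.log (phR d m p))) (W.prod (volume : Measure T2)) := j2.add iR.1
  have hint : ∫ p, (Real.log (nn (Mm d m p)) + Real.log (nn (Mm d m ((sk d)^[m] p)))) ∂(W.prod (volume : Measure T2)) ≤
      ∫ p, (Real.log (nn (Mm d (2 * m) p)) + Real.log (100 * |d.a| ^ 3) +
        max 0 (-Real.log (phJ d m p)) + max 0 (-Real.log (phR d m p)) +
        max 0 (-Real.log (phC d m ((sk d)^[m] p)))) ∂(W.prod (volume : Measure T2)) :=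
    integral_mono (i1.add i2) (j3.add iC.1) (fun p => dbl_pt hd hm p)
  rw [integral_add i1 i2, Em_skL hd m m, integral_add j3 iC.1, integral_add j2 iR.1,
    integral_add j1 iJ.1, integral_add i3 (integrable_const _)] at hint
  have hc : ∫ _ : Pt, Real.log (100 * |d.a| ^ 3) ∂(W.prod (volume : Measure T2)) = Real.log (100 * |d.a| ^ 3) := by
    rw [integral_const, probReal_univ, one_smul]
  rw [hc] at hint
  have e1 : ∫ p, Real.log (nn (Mm d m p)) ∂(W.prod (volume : Measure T2)) = EmL W d m := rfl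
  have e2 : ∫ p, Real.log (nn (Mm d (2 * m) p)) ∂(W.prod (volume : Measure T2)) = EmL W d (2 * m) := rfl
  rw [e1, e2] at hint
  rw [← hLN]
  have hfin : Real.log (100 * |d.a| ^ 3) + 3 * B ≤ (36 + 12 * C₀) * (m : ℝ) ^ β * LN := by
    have h1 : Real.log (100 * |d.a| ^ 3) ≤ 5 + 3 * Real.log |d.a| := by
      rw [Real.log_mul (by norm_num) (by positivity), Real.log_pow]
      push_cast
      linarith [log100_h54]
    have h2 : (1 : ℝ) ≤ (m : ℝ) ^ β := Real.one_le_rpow hm1 hβ.le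
    have h3 : (2 * (m : ℝ)) ^ β ≤ 2 * (m : ℝ) ^ β := by
      rw [Real.mul_rpow (by norm_num) hm0.le]
      have h4 : (2 : ℝ) ^ β ≤ 2 := by
        calc (2 : ℝ) ^ β ≤ 2 ^ (1 : ℝ) := Real.rpow_le_rpow_of_exponent_le (by norm_num) hβ1.le
          _ = 2 := Real.rpow_one 2
      gcongr
    have h4 : C₀ * (2 * (m : ℝ)) ^ β * LN ≤ 2 * C₀ * ((m : ℝ) ^ β * LN) := by
      calc C₀ * (2 * (m : ℝ)) ^ β * LN ≤ C₀ * (2 * (m : ℝ) ^ β) * LN := by gcongr
        _ = _ := by ring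
    have h5 : LN ≤ (m : ℝ) ^ β * LN := le_mul_of_one_le_left (by linarith) h2
    have h6 : LN = 1 + Real.log |d.a| + Real.log (1 / d.κ) + Real.log (NN lo) := hLN
    have h7 : 5 + 3 * Real.log |d.a| + 3 * (10 + Real.log (1 / d.κ) + 2 * Real.log (NN lo)) ≤ 36 * LN := by
      rw [h6]
      linarith
    calc Real.log (100 * |d.a| ^ 3) + 3 * B
        ≤ 36 * LN + 6 * (C₀ * (2 * (m : ℝ)) ^ β * LN) := by rw [hB]; linarith
      _ ≤ 36 * ((m : ℝ) ^ β * LN) + 6 * (2 * C₀ * ((m : ℝ) ^ β * LN)) := by linarith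
      _ = _ := by ring
  linarith [iJ.2, iR.2, iC.2]

end Pool.Agent.Helper18.AM
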