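import Pool.Agent.Helper72.AP.Defs
import Pool.Agent.Helper18.AL.Sep

/-! Project AM (block B2 of Pool/Agent/Helper72/AP): the random standard map for any law of the noise: the skew product preserves `L.prod volume`, mean growth, resampling of a cell. -/

set_option autoImplicit false
open MeasureTheory Real Set
open scoped ENNReal

namespace Pool.Agent.Helper18.AM

open Pool.Agent.Helper95.PV
open Pool.Agent.Helper72.AP (Rs EmL)
open Pool.Agent.Helper18.UC (T2 rep toT nn nn_nonneg nn_mul nn_one)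
open Pool.Agent.Helper18.FD (NN rr pr cl uu lm Bump k1 k2 NN_pos NN_ge)

variable {d : Dat} {W : Measure Om} [IsProbabilityMeasure W]

instance instProbT : IsProbabilityMeasure (volume : Measure T2) := Pool.Agent.Helper18.PV.instProbT2

theorem sk_mpL (hd : d.Ok) : MeasurePreserving (sk d) (W.prod (volume : Measure T2)) (W.prod (volume : Measure T2)) := by
  have hm : Measurable (Function.uncurry fun (ω : Om) (z : T2) => Tw d ω z) :=
    measurable_snd.comp (meas_sk hd)
  have h := (MeasurePreserving.id W).skew_product (μc := (volume : Measure T2)) (μd := (volume : Measure T2))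
    (g := fun ω z => Tw d ω z) hm
    (Filter.Eventually.of_forall fun ω => (Tw_mp hd ω).map_eq)
  unfold sk
  exact h

theorem sk_iter_mpL (hd : d.Ok) (n : ℕ) :
    MeasurePreserving ((sk d)^[n]) (W.prod (volume : Measure T2)) (W.prod (volume : Measure T2)) :=
  (sk_mpL hd).iterate n

theorem int_log_nnL (hd : d.Ok) (n : ℕ) :
    Integrable (fun p => Real.log (nn (Mm d n p))) (W.prod (volume : Measure T2)) := by
  refine Integrable.of_bound (Real.measurable_log.comp (meas_nn hd n)).aestronglyMeasurable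
    (Real.log 2 + n * (3 * Real.log |d.a|)) (Filter.Eventually.of_forall fun p => ?_)
  obtain ⟨h1, h2⟩ := log_nn_bd hd n p
  rw [Real.norm_eq_abs, abs_of_nonneg h1]
  exact h2

theorem Em_skL (hd : d.Ok) (n i : ℕ) :
    ∫ p, Real.log (nn (Mm d n ((sk d)^[i] p))) ∂(W.prod (volume : Measure T2)) = EmL W d n := by
  have h := sk_iter_mpL (W := W) hd i
  have h1 : Measurable fun p => Real.log (nn (Mm d n p)) := Real.measurable_log.comp (meas_nn hd n)
  have h2 := integral_map (μ := W.prod (volume : Measure T2)) (φ := (sk d)^[i]) h.measurable.aemeasurable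
    (f := fun p => Real.log (nn (Mm d n p))) h1.aestronglyMeasurable
  rw [h.map_eq] at h2
  exact h2.symm

/-- resampling of the two coordinates of a cell -/
theorem res2L (l i : ℕ) (h0 : Rs W (l, i, false)) (h1 : Rs W (l, i, true)) {F : Om → ℝ≥0∞} (hF : Measurable F) :
    ∫⁻ ω, F ω ∂W = ∫⁻ ω, ∫⁻ u, ∫⁻ v, F (upd l i u v ω) ∂uu ∂uu ∂W :=
  Pool.Agent.Helper18.AL.res2 (W := W) (i := ((l, i, false) : Ix)) (j := ((l, i, true) : Ix)) h0 h1 hF

/-- the separation -/
theorem sep_intL {s : ℝ} (hs : 0 < s) (hs1 : s < 1) :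
    ∃ β C : ℝ, 0 < β ∧ β < 1 ∧ 0 < C ∧ ∀ d : Dat, d.Ok → d.s = s → ∀ (lo : ℕ) (W : Measure Om),
      IsProbabilityMeasure W → (∀ i : Ix, lo ≤ i.1 → Rs W i) → ∀ k n : ℕ, k ≤ n → 1 ≤ n →
      ∫⁻ p, lm (sepd d k n p) ∂(W.prod (volume : Measure T2)) ≤
        ENNReal.ofReal (C * (n : ℝ) ^ β * (Lam d + Real.log (NN lo))) := by
  obtain ⟨β, C, hβ, hβ1, hC, H⟩ := Pool.Agent.Helper18.AL.sep_intL Ix hs hs1
  refine ⟨β, C * 3, hβ, hβ1, by positivity, fun d hd hds lo W hW hR k n hk hn => ?_⟩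
  have hok := Kz_ok hd
  rw [hds] at hok
  have h1 := H (Kz d) (2 / d.κ) hok lo W hW
    (fun l c hl => ⟨hR _ hl, hR _ hl⟩) k n hk hn
  have h2 : ∀ p : Pt, Pool.Agent.Helper18.PV.sepw (Ks d) k n p = sepd d k n p := by
    intro p
    unfold Pool.Agent.Helper18.PV.sepw sepd
    simp only [wd_eq]
  have h3 : ∫⁻ p, lm (sepd d k n p) ∂(W.prod (volume : Measure T2)) =
      ∫⁻ p, lm (Pool.Agent.Helper18.PV.sepw (Ks d) k n p) ∂(W.prod (volume : Measure T2)) := by
    refine lintegral_congr fun p => ?_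
    rw [h2]
  rw [h3]
  refine h1.trans (ENNReal.ofReal_le_ofReal ?_)
  have hn1 : (0 : ℝ) < n := by exact_mod_cast hn
  have h4 : 0 < C * (n : ℝ) ^ β := by positivity
  have hN1 : (1 : ℝ) ≤ NN lo := by linarith [NN_ge lo]
  have hlN : 0 ≤ Real.log (NN lo : ℝ) := Real.log_nonneg hN1
  have h5 : 1 + 2 * Real.log (2 / d.κ) + Real.log (NN lo) ≤ 3 * (Lam d + Real.log (NN lo)) := by
    obtain ⟨_, h6, h7⟩ := one_le_Lam hd
    have h8 : Real.log (2 / d.κ) = Real.log 2 + Real.log (1 / d.κ) := by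
      rw [← Real.log_mul (by norm_num) (by have := hd.hκ; positivity)]
      congr 1
      ring
    have h9 := Real.log_two_lt_d9
    rw [h8]
    linarith
  calc C * (n : ℝ) ^ β * (1 + 2 * Real.log (2 / d.κ) + Real.log (NN lo)) ≤
      C * (n : ℝ) ^ β * (3 * (Lam d + Real.log (NN lo))) := by gcongr
    _ = C * 3 * (n : ℝ) ^ β * (Lam d + Real.log (NN lo)) := by ring

end Pool.Agent.Helper18.AM
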